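import Pool.Graph.R_seed8.H345R3.HomP

set_option autoImplicit false

namespace Pool.Agent.KS6_77.HomPr

open Filter Topology BoundedContinuousFunction WeakDual

/-- characters kill the radical -/
theorem char_rad {B : Type} [NormedCommRing B] [NormedAlgebra ℂ B] (χ : B →ₐ[ℂ] ℂ) {r : B}
    (hr : r ∈ Ideal.jacobson (⊥ : Ideal B)) : χ r = 0 := by
  by_contra hc
  rw [Ideal.mem_jacobson_bot] at hr
  have h := (hr (algebraMap ℂ B (-(χ r)⁻¹))).map χ
  have h2 : χ (r * algebraMap ℂ B (-(χ r)⁻¹) + 1) = 0 := by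
    rw [map_add, map_mul, map_one, AlgHom.commutes]
    have h3 : (algebraMap ℂ ℂ) (-(χ r)⁻¹) = -(χ r)⁻¹ := rfl
    rw [h3, mul_neg, mul_inv_cancel₀ hc]
    ring
  rw [h2] at h
  exact not_isUnit_zero h

theorem mem_rad {C : Type} [NormedCommRing C] [NormedAlgebra ℂ C] [CompleteSpace C] {x : C}
    (h : ∀ χ : characterSpace ℂ C, χ x = 0) : x ∈ Ideal.jacobson (⊥ : Ideal C) := by
  rw [Ideal.mem_jacobson_bot]
  intro y
  by_contra hu
  obtain ⟨χ, hχ⟩ := WeakDual.CharacterSpace.exists_apply_eq_zero hu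
  rw [map_add, map_mul, h χ, zero_mul, zero_add, map_one] at hχ
  exact one_ne_zero hχ

/-- a functional vanishing on a subspace and not at a point outside its closure -/
theorem sep {B : Type} [NormedAddCommGroup B] [NormedSpace ℂ B] (M : Submodule ℂ B) (r : B)
    (hr : r ∉ closure (M : Set B)) : ∃ f : B →L[ℂ] ℂ, (∀ x ∈ M, f x = 0) ∧ f r ≠ 0 := by
  have hcl : IsClosed (M.topologicalClosure : Set B) := M.isClosed_topologicalClosure
  have : IsClosed (M.topologicalClosure : Set B) := hcl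
  let N := M.topologicalClosure
  have hne : ‖(Submodule.Quotient.mk r : B ⧸ N)‖ ≠ 0 := by
    intro h0
    have h1 : (Submodule.Quotient.mk r : B ⧸ N) = 0 := norm_eq_zero.1 h0
    rw [Submodule.Quotient.mk_eq_zero] at h1
    exact hr h1
  obtain ⟨g, -, hg⟩ := exists_dual_vector ℂ (Submodule.Quotient.mk r : B ⧸ N) hne
  let q : B →L[ℂ] (B ⧸ N) := LinearMap.mkContinuous N.mkQ 1 (fun x => by
    rw [one_mul]
    exact Submodule.Quotient.norm_mk_le N x)
  refine ⟨g.comp q, fun x hx => ?_, ?_⟩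
  · have : q x = 0 := (Submodule.Quotient.mk_eq_zero N).2 (M.le_topologicalClosure hx)
    show g (q x) = 0
    rw [this, map_zero]
  · show g (Submodule.Quotient.mk r : B ⧸ N) ≠ 0
    rw [hg]
    exact fun h => hne (Complex.ofReal_eq_zero.1 h)

/-- in a local amenable commutative Banach algebra the square of the radical is dense in it -/
theorem rad_sq {B : Type} [NormedCommRing B] [NormedAlgebra ℂ B] [CompleteSpace B] [Nontrivial B]
    (hB : H611R3.ZL.Amenable B)
    (hloc : ∀ b : B, ∃ c : ℂ, b - algebraMap ℂ B c ∈ Ideal.jacobson (⊥ : Ideal B)) (r : B)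
    (hr : r ∈ Ideal.jacobson (⊥ : Ideal B)) :
    r ∈ closure ((Submodule.span ℂ {x : B | ∃ s ∈ Ideal.jacobson (⊥ : Ideal B),
      ∃ t ∈ Ideal.jacobson (⊥ : Ideal B), x = s * t} : Submodule ℂ B) : Set B) := by
  by_contra hcon
  obtain ⟨f, hf, hfr⟩ := sep _ r hcon
  obtain ⟨χ0, -⟩ := WeakDual.CharacterSpace.exists_apply_eq_zero (A := B) (a := 0)
    not_isUnit_zero
  let χ : B →ₐ[ℂ] ℂ := CharacterSpace.equivAlgHom χ0
  have hχc : Continuous χ := map_continuous χ0
  have hsub : ∀ b : B, b - algebraMap ℂ B (χ b) ∈ Ideal.jacobson (⊥ : Ideal B) := by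
    intro b
    obtain ⟨c, hc⟩ := hloc b
    have h1 := char_rad χ hc
    rw [map_sub, AlgHom.commutes, sub_eq_zero] at h1
    have h2 : χ b = c := h1
    rw [h2]
    exact hc
  let χL : B →L[ℂ] ℂ := ⟨χ.toLinearMap, hχc⟩
  let F : B →L[ℂ] ℂ := f - (f 1) • χL
  have hF : ∀ b, F b = f (b - algebraMap ℂ B (χ b)) := by
    intro b
    show f b - f 1 * χ b = _
    rw [Algebra.algebraMap_eq_smul_one, map_sub, map_smul, smul_eq_mul, mul_comm]
  let Bil : B →L[ℂ] ℂ →L[ℂ] ℂ := (ContinuousLinearMap.mul ℂ ℂ).comp F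
  let Lχ : B →L[ℂ] ℂ →L[ℂ] ℂ := (ContinuousLinearMap.mul ℂ ℂ).comp χL
  have hmod : H611R3.ZL.IsBimodule (fun (a : B) (x : ℂ) => χ a * x) (fun a x => χ a * x) :=
    { bdd_left := Lχ.isBoundedBilinearMap
      bdd_right := Lχ.isBoundedBilinearMap
      left_mul := fun a b x => by
        show χ (a * b) * x = χ a * (χ b * x)
        rw [map_mul, mul_assoc]
      right_mul := fun a b x => by
        show χ (a * b) * x = χ b * (χ a * x)
        rw [map_mul]
        ring
      left_right := fun a b x => by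
        show χ a * (χ b * x) = χ b * (χ a * x)
        ring }
  have hder : H611R3.ZL.IsDualDerivation (fun (a : B) (x : ℂ) => χ a * x) (fun a x => χ a * x)
      (fun a x => F a * x) :=
    { bdd := Bil.isBoundedBilinearMap
      leibniz := fun a b x => by
        show F (a * b) * x = F b * (χ a * x) + F a * (χ b * x)
        have h1 : f ((a - algebraMap ℂ B (χ a)) * (b - algebraMap ℂ B (χ b))) = 0 :=
          hf _ (Submodule.subset_span ⟨_, hsub a, _, hsub b, rfl⟩)
        have h2 : a * b - algebraMap ℂ B (χ (a * b)) =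
            (a - algebraMap ℂ B (χ a)) * (b - algebraMap ℂ B (χ b)) +
            (χ a • (b - algebraMap ℂ B (χ b)) + χ b • (a - algebraMap ℂ B (χ a))) := by
          simp only [Algebra.smul_def, map_mul]
          ring
        have h3 : F (a * b) = χ a * F b + χ b * F a := by
          rw [hF, h2, map_add, h1, zero_add, map_add, map_smul, map_smul, ← hF, ← hF]
          rfl
        rw [h3]
        ring }
  obtain ⟨φ, -, hφ⟩ := hB ℂ inferInstance inferInstance inferInstance _ _ hmod _ hder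
  have h5 := hφ r 1
  have h6 : F r = 0 := by
    have h7 : F r * 1 = φ (χ r * 1) - φ (χ r * 1) := h5
    rw [mul_one, sub_self] at h7
    exact h7
  rw [hF, char_rad χ hr, map_zero, sub_zero] at h6
  exact hfr h6

section
variable {A B : Type} [NormedCommRing A] [NormedAlgebra ℂ A] [CompleteSpace A]
  [NormedCommRing B] [NormedAlgebra ℂ B] [CompleteSpace B]
  (I : Type) [TopologicalSpace I] [DiscreteTopology I]

/-- constants -/
noncomputable def cst : B →ₐ[ℂ] (I →ᵇ B) where
  toFun := BoundedContinuousFunction.const I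
  map_one' := rfl
  map_mul' _ _ := rfl
  map_zero' := rfl
  map_add' _ _ := rfl
  commutes' _ := rfl

open Classical in
/-- a homomorphism for every subset of `I` -/
noncomputable def Phi (φ ψ : A →ₐ[ℂ] B) (S : Set I) : A →ₐ[ℂ] (I →ᵇ B) where
  toFun a := BoundedContinuousFunction.ofNormedAddCommGroupDiscrete
    (fun i => if i ∈ S then φ a else ψ a) (‖φ a‖ + ‖ψ a‖) (fun i => by
      split_ifs
      · linarith [norm_nonneg (ψ a)]
      · linarith [norm_nonneg (φ a)])
  map_one' := by ext i; by_cases h : i ∈ S <;> simp [h]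
  map_mul' a b := by ext i; by_cases h : i ∈ S <;> simp [h]
  map_zero' := by ext i; by_cases h : i ∈ S <;> simp [h]
  map_add' a b := by ext i; by_cases h : i ∈ S <;> simp [h]
  commutes' c := by
    ext i
    by_cases h : i ∈ S
    · show (if i ∈ S then φ (algebraMap ℂ A c) else ψ (algebraMap ℂ A c)) = algebraMap ℂ B c
      rw [if_pos h, AlgHom.commutes]
    · show (if i ∈ S then φ (algebraMap ℂ A c) else ψ (algebraMap ℂ A c)) = algebraMap ℂ B c
      rw [if_neg h, AlgHom.commutes]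

open Classical in
theorem Phi_apply (φ ψ : A →ₐ[ℂ] B) (S : Set I) (a : A) (i : I) :
    Phi I φ ψ S a i = if i ∈ S then φ a else ψ a := rfl

theorem Phi_cont (φ ψ : A →ₐ[ℂ] B) (hφ : Continuous φ) (hψ : Continuous ψ) (S : Set I) :
    Continuous (Phi I φ ψ S) := by
  classical
  let φL : A →L[ℂ] B := ⟨φ.toLinearMap, hφ⟩
  let ψL : A →L[ℂ] B := ⟨ψ.toLinearMap, hψ⟩
  refine AddMonoidHomClass.continuous_of_bound (Phi I φ ψ S) (‖φL‖ + ‖ψL‖) fun a => ?_
  have h1 : ‖φ a‖ ≤ ‖φL‖ * ‖a‖ := φL.le_opNorm a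
  have h2 : ‖ψ a‖ ≤ ‖ψL‖ * ‖a‖ := ψL.le_opNorm a
  have h3 : 0 ≤ ‖φL‖ * ‖a‖ := by positivity
  have h4 : 0 ≤ ‖ψL‖ * ‖a‖ := by positivity
  rw [BoundedContinuousFunction.norm_le (by positivity)]
  intro i
  rw [Phi_apply]
  split_ifs <;> nlinarith

theorem Phi_inj (φ ψ : A →ₐ[ℂ] B) (hne : φ ≠ ψ) : Function.Injective (Phi I φ ψ) := by
  classical
  obtain ⟨a, ha⟩ : ∃ a, φ a ≠ ψ a := by
    by_contra hc
    push Not at hc
    exact hne (AlgHom.ext hc)
  intro S T h
  ext i
  have h1 : Phi I φ ψ S a i = Phi I φ ψ T a i := by rw [h]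
  rw [Phi_apply, Phi_apply] at h1
  by_cases hS : i ∈ S <;> by_cases hT : i ∈ T
  · exact ⟨fun _ => hT, fun _ => hS⟩
  · rw [if_pos hS, if_neg hT] at h1
    exact absurd h1 ha
  · rw [if_neg hS, if_pos hT] at h1
    exact absurd h1.symm ha
  · exact ⟨fun h => absurd h hS, fun h => absurd h hT⟩

theorem Phi_rad (φ ψ : A →ₐ[ℂ] B) (h : ∀ a, φ a - ψ a ∈ Ideal.jacobson (⊥ : Ideal B))
    (S T : Set I) (a : A) :
    Phi I φ ψ S a - Phi I φ ψ T a ∈ Ideal.jacobson (⊥ : Ideal (I →ᵇ B)) := by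
  classical
  refine mem_rad fun χ => ?_
  let g : I →ᵇ B := BoundedContinuousFunction.ofNormedAddCommGroupDiscrete
    (fun i => (if i ∈ S then (1 : B) else 0) - (if i ∈ T then (1 : B) else 0))
    (‖(1 : B)‖ + ‖(1 : B)‖) (fun i => by
      refine (norm_sub_le _ _).trans ?_
      refine add_le_add ?_ ?_
      · split_ifs
        · exact le_rfl
        · rw [norm_zero]; exact norm_nonneg _
      · split_ifs
        · exact le_rfl
        · rw [norm_zero]; exact norm_nonneg _)
  have h1 : Phi I φ ψ S a - Phi I φ ψ T a = g * cst I (φ a - ψ a) := by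
    ext i
    show (if i ∈ S then φ a else ψ a) - (if i ∈ T then φ a else ψ a) =
      ((if i ∈ S then (1 : B) else 0) - (if i ∈ T then (1 : B) else 0)) * (φ a - ψ a)
    split_ifs <;> ring
  have h2 : χ (cst I (φ a - ψ a)) = 0 :=
    char_rad ((CharacterSpace.equivAlgHom χ).comp (cst I)) (h a)
  rw [h1, map_mul, h2, mul_zero]

end

end Pool.Agent.KS6_77.HomPr
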